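import Pool.Agent.H7.TV.Basic

/-!
# The modified Tverberg A-P conjecture is false

For every `r ≥ 3` and every `d > r` with `d mod r ∉ {0, r - 1}` there is a strongly admissible
`r`-tuple which is not Tverberg prescribable in dimension `d`. The smallest case is `r = 3`, `d = 4`
with the tuple `(2, 2, 4)`.
-/

namespace Pool.Agent.Results.MP_110560_co.ModifiedTverbergAP

open Pool.Agent.H7.TV

/-- **Theorem** (negative answer to Q1). For every `r ≥ 3` and every `d > r` such that `d` is congruent
neither to `0` nor to `-1` modulo `r` (for instance `r = 3`, `d = 4`) there is a strongly admissible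
`r`-tuple `D` such that for every `N` some continuous map `f : Δ^N → ℝ^d` has no Tverberg partition
`σ₁, …, σ_r` with `dim σ_i = D_i` for all `i`. -/
theorem result (r d : ℕ) (hr : 3 ≤ r) (hd : r < d) (h0 : d % r ≠ 0) (h1 : d % r ≠ r - 1) :
    ∃ D : Fin r → ℤ, StronglyAdmissible d D ∧
      ∀ N : ℕ, ∃ f : C(Simplex N, EuclideanSpace ℝ (Fin d)),
        ¬ ∃ σ : Fin r → Finset (Fin (N + 1)),
          IsTverbergPartition f σ ∧ ∀ i, faceDim (σ i) = D i := by
  have hmod := Nat.mod_lt d (show r > 0 by omega)
  have hdiv := Nat.div_add_mod d r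
  have hk : 1 ≤ d / r := (Nat.le_div_iff_mul_le (by omega)).2 (by omega)
  obtain ⟨D, hD1, hD2⟩ := family r (d / r) (d % r) hr hk (by omega) (by omega)
  rw [hdiv] at hD1 hD2
  refine ⟨D, hD1, fun N => ?_⟩
  by_contra hcon
  push Not at hcon
  exact hD2 ⟨N, hcon⟩

end Pool.Agent.Results.MP_110560_co.ModifiedTverbergAP
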