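import Pool.Agent.H7.TV.Basic

/-!
# A necessary condition for Tverberg prescribable tuples

If an `r`-tuple is Tverberg prescribable in dimension `d`, then it dominates the balanced `r`-tuple of
sum `(r - 1) d`.
-/

namespace Pool.Agent.Results.MP_110560_co.PrescribableNecessary

open Pool.Agent.H7.TV

/-- **Theorem.** Let `r, d ≥ 1` and write `(r - 1) d = r a + b` with `0 ≤ b < r`. If the tuple
`D = (D₁, …, D_r)` is Tverberg prescribable in dimension `d`, then every `D_i` is at least `a`, and at
most `r - b` of the `D_i` are equal to `a`. -/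
theorem result (d r : ℕ) (hd : 1 ≤ d) (hr : 1 ≤ r) (D : Fin r → ℤ) (hD : Prescribable d D) :
    (∀ i, (((r - 1) * d / r : ℕ) : ℤ) ≤ D i) ∧
    (Finset.univ.filter fun i => D i = (((r - 1) * d / r : ℕ) : ℤ)).card + (r - 1) * d % r ≤ r :=
  necessary d r hd hr D hD

end Pool.Agent.Results.MP_110560_co.PrescribableNecessary
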